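import Pool.Agent.helper88.T8.Spec
import Pool.Agent.helper18.T6.WPR

/-!
# T8 (MP_16912e_nt), row WB8: one block of pairs, with a set of boxes for every pair
-/

set_option autoImplicit false

namespace Pool.Agent.T8

open Finset NumberField Pool.Agent.helper3.FT Pool.Agent.helper47.RA Pool.Agent.T5 Pool.Agent.T6 Pool.Agent.T7
open scoped nonZeroDivisors

/-- the size hypotheses on `ρ` -/
def WB8_H (N K L T es : ℕ) (ρ : ℝ) : Prop :=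
  32 * ((T : ℝ) * es) * L / (N : ℝ) ^ 3 + 2 * (N : ℝ) ^ 2 * K / L + (K : ℝ) ^ 3 / L ≤ ρ ∧
    4 * (N : ℝ) / K * (32 * ((T : ℝ) * es) * L / (N : ℝ) ^ 3 + 2 * (N : ℝ) ^ 2 * K / L + (K : ℝ) ^ 3 / L) +
      5 * (N : ℝ) ^ 3 / L ≤ ρ

theorem WB8_WB (N K L T er es y : ℕ) (ρ : ℝ) (hN : 1 ≤ N) (hK : 1 ≤ K) (hL : 1 ≤ L) (hT : 1 ≤ T) (hes : 1 ≤ es) (hρ : 0 ≤ ρ)
    (H : WB8_H N K L T es ρ) : WB (max (ρ ^ 2) ((T : ℝ) * y)) N K L L T er es y 1 ρ := by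
  obtain ⟨H1, H2⟩ := H
  have hN0 : (1 : ℝ) ≤ N := by exact_mod_cast hN
  have hK0 : (1 : ℝ) ≤ K := by exact_mod_cast hK
  have hL0 : (1 : ℝ) ≤ L := by exact_mod_cast hL
  have hT0 : (1 : ℝ) ≤ T := by exact_mod_cast hT
  have he0 : (1 : ℝ) ≤ es := by exact_mod_cast hes
  have hC0 : 0 ≤ max (ρ ^ 2) ((T : ℝ) * y) := le_max_of_le_left (by positivity)
  have h1 : 0 ≤ 2 * (N : ℝ) ^ 2 * K / L := by positivity
  have h2 : 0 ≤ 4 * (N : ℝ) / K * (32 * ((T : ℝ) * es) * L / (N : ℝ) ^ 3 + 2 * (N : ℝ) ^ 2 * K / L + (K : ℝ) ^ 3 / L) := by positivity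
  have h3 : 0 ≤ (N : ℝ) ^ 3 / L := by positivity
  have e3 : 5 * (N : ℝ) ^ 3 / L = 5 * ((N : ℝ) ^ 3 / L) := by ring
  refine ⟨hN, hK, hL, hL, hT, le_refl _, hρ, ?_, ?_, ?_, ?_, ?_, ?_⟩
  · have h4 : (1 : ℝ) ≤ es * T := one_le_mul_of_one_le_of_one_le he0 hT0
    have h5 := mul_le_mul_of_nonneg_left h4 hC0
    have h6 := le_max_left (ρ ^ 2) ((T : ℝ) * y)
    calc ρ ^ 2 ≤ max (ρ ^ 2) ((T : ℝ) * y) := h6
      _ ≤ max (ρ ^ 2) ((T : ℝ) * y) * (es * T) := by linarith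
      _ = _ := by ring
  · rw [one_pow, mul_one]
    linarith
  · rw [mul_one]
    exact H1
  · rw [div_one]
    exact H2
  · rw [one_pow, div_one]
    linarith
  · have h4 : (1 : ℝ) ≤ (N : ℝ) * K := one_le_mul_of_one_le_of_one_le hN0 hK0
    have h5 := mul_le_mul_of_nonneg_left h4 hC0
    have h6 := le_max_right (ρ ^ 2) ((T : ℝ) * y)
    linarith

open Classical in
/-- one pair, one class, one box -/
theorem WB8_pair (hWP8 : WP8_stmt) (hWNR : WNR_stmt) (hWDL : WDL_stmt) (y₀ : ℕ) (hy₀ : 5 ≤ y₀) :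
    ∃ CP : ℝ, 1 ≤ CP ∧ ∀ (N K L T er es y : ℕ) (ρ V : ℝ), 1 ≤ N → 1 ≤ K → 1 ≤ L → 1 ≤ T → 1 ≤ er → 1 ≤ es →
    Nat.Coprime er es → 0 < V → 0 ≤ ρ →
    (T = 1 ∨ (64 * T * V ≤ (N : ℝ) ^ 3 * K * es * (er : ℝ) ^ 2 ∧ WB8_H N K L T es ρ)) →
    ∀ n k : ℕ, (n, k) ∈ pairs N K y → ∀ (x : Cls) (a b z₀ : ℝ), ∀ F : Finset Tpl,
    (∀ t ∈ F, IsT t ∧ t.1 = (n, k) ∧ Nat.Coprime (t.1.1 * t.1.2) er ∧ InC er es x t ∧
      |(t.2.1 : ℝ) - a| + 3 * (er * es) ≤ er * es * (L : ℝ) ∧ |(t.2.2.1 : ℝ) - b| + 3 * (er * es) ≤ er * es * (L : ℝ) ∧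
      z₀ < t.2.2.2 ∧ (t.2.2.2 : ℝ) ≤ z₀ + V) →
    (F.card : ℝ) ≤ CP * (L : ℝ) ^ 2 * (16 * (V / ((N : ℝ) ^ 3 * K * es * (er : ℝ) ^ 2)) + 1 / T) +
      CP * L / T * (484 * ∑ h ∈ Ico 1 T, (1 + ρ ^ (3 / 2 : ℝ) *
      (1 / lamb 1 (dl y₀ h (n * k)) (rt (dl y₀ h (n * k)) n k)) ^ (3 / 2 : ℝ))) := by
  obtain ⟨CP, hCP, H⟩ := hWP8
  refine ⟨CP, hCP, ?_⟩
  intro N K L T er es y ρ V hN hK hL hT her hes hee hV hρ hTV n k hp x a b z₀ F hF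
  have hT1 : (1 : ℝ) ≤ T := by exact_mod_cast hT
  have hlam : ∀ d r, 0 ≤ lamb 1 d r := WPR_lam 1 one_pos
  have hrn : ∀ h, 0 ≤ (1 / lamb 1 (dl y₀ h (n * k)) (rt (dl y₀ h (n * k)) n k)) ^ (3 / 2 : ℝ) := by
    intro h
    exact Real.rpow_nonneg (div_nonneg zero_le_one (hlam _ _)) _
  have hρn : 0 ≤ ρ ^ (3 / 2 : ℝ) := Real.rpow_nonneg hρ _
  have hN0 : (0 : ℝ) < N := by exact_mod_cast hN
  have hK0 : (0 : ℝ) < K := by exact_mod_cast hK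
  have hL0 : (0 : ℝ) < L := by exact_mod_cast hL
  have her0 : (0 : ℝ) < er := by exact_mod_cast her
  have hes0 : (0 : ℝ) < es := by exact_mod_cast hes
  rcases F.eq_empty_or_nonempty with hE | ⟨t, ht⟩
  · rw [hE, card_empty, Nat.cast_zero]
    have : 0 ≤ ∑ h ∈ Ico 1 T, (1 + ρ ^ (3 / 2 : ℝ) *
      (1 / lamb 1 (dl y₀ h (n * k)) (rt (dl y₀ h (n * k)) n k)) ^ (3 / 2 : ℝ)) := by
      apply sum_nonneg
      intro h _
      have := mul_nonneg hρn (hrn h)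
      linarith
    positivity
  obtain ⟨-, ht1, hcop, -⟩ := hF t ht
  rw [ht1] at hcop
  simp only at hcop
  have hp' := hp
  unfold pairs at hp'
  rw [mem_filter, mem_product, mem_Icc, mem_Icc] at hp'
  obtain ⟨⟨⟨hn1, hnN⟩, hk1, hkK⟩, hNn, hKk, hco, -⟩ := hp'
  simp only at hn1 hnN hk1 hkK hNn hKk hco
  have hn0 : (0 : ℝ) < n := by exact_mod_cast hn1
  have hk0 : (0 : ℝ) < k := by exact_mod_cast hk1
  have hNn' : (N : ℝ) ≤ 2 * n := by exact_mod_cast hNn.le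
  have hKk' : (K : ℝ) ≤ 2 * k := by exact_mod_cast hKk.le
  obtain ⟨α, β, γ, hR, H2⟩ := H n k er es hn1 hk1 her hes hco hee hcop
  have e0 : (N : ℝ) ^ 3 ≤ (2 * n) ^ 3 := pow_le_pow_left₀ hN0.le hNn' 3
  have e1 : (N : ℝ) ^ 3 * K * es * (er : ℝ) ^ 2 ≤ (2 * n) ^ 3 * (2 * k) * es * (er : ℝ) ^ 2 := by
    gcongr
  have e2 : (2 * (n : ℝ)) ^ 3 * (2 * k) * es * (er : ℝ) ^ 2 =
    16 * ((n : ℝ) ^ 3 * k * es * (er : ℝ) ^ 2) := by ring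
  rw [e2] at e1
  have h3 := H2 x L T a b z₀ V F hL hT hV (by
    rcases hTV with h | ⟨h, -⟩
    · exact Or.inl h
    · right
      have e4 : 16 * (4 * (T : ℝ) * V) = 64 * T * V := by ring
      linarith) (by
    intro t ht
    obtain ⟨a1, a2, -, a4, a5, a6, a7, a8⟩ := hF t ht
    exact ⟨a1, a2, a4, a5, a6, a7, a8⟩)
  refine h3.trans ?_
  have hV2 : V / ((n : ℝ) ^ 3 * k * es * (er : ℝ) ^ 2) ≤ 16 * (V / ((N : ℝ) ^ 3 * K * es * (er : ℝ) ^ 2)) := by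
    rw [← mul_div_assoc, div_le_div_iff₀ (by positivity) (by positivity)]
    have := mul_le_mul_of_nonneg_left e1 hV.le
    linarith
  have h4 : ∑ h ∈ Ico 1 T,
      √((nearPts L L ((h * es : ℕ) * α / ((n : ℝ) ^ 3 * k)) ((h * es : ℕ) * β / ((n : ℝ) ^ 3 * k))
        ((h * es : ℕ) * γ / ((n : ℝ) ^ 3 * k))).card : ℝ) ≤
      484 * ∑ h ∈ Ico 1 T, (1 + ρ ^ (3 / 2 : ℝ) *
      (1 / lamb 1 (dl y₀ h (n * k)) (rt (dl y₀ h (n * k)) n k)) ^ (3 / 2 : ℝ)) := by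
    rcases hTV with h | ⟨-, hW⟩
    · rw [h]
      simp
    · rw [mul_sum]
      exact sum_le_sum (fun h hh => WPR_near hWNR hWDL y₀ hy₀ _ N K L L T er es y 1 ρ
        (WB8_WB N K L T er es y ρ hN hK hL hT hes hρ hW) hes n k hp α β γ hR h hh)
  gcongr

open Classical in
/-- all pairs, all classes, all boxes -/
theorem WB8_count {β : Type} (N K y : ℕ) (s J : ℝ) (g : ℕ × ℕ → ℝ) (S : ℕ × ℕ → Finset Cls)
    (hS : ∀ p, ((S p).card : ℝ) ≤ s) (B : ℕ × ℕ → Finset β) (hB : ∀ p, ((B p).card : ℝ) ≤ J) (F : Finset Tpl) (R : Cls → β → Tpl → Prop)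
    (hF : ∀ t ∈ F, t.1 ∈ pairs N K y ∧ ∃ x ∈ S t.1, ∃ c ∈ B t.1, R x c t)
    (hg0 : ∀ p ∈ pairs N K y, 0 ≤ g p)
    (hg : ∀ p ∈ pairs N K y, ∀ x ∈ S p, ∀ c ∈ B p, ((F.filter (fun t => t.1 = p ∧ R x c t)).card : ℝ) ≤ g p) :
    (F.card : ℝ) ≤ s * J * ∑ p ∈ pairs N K y, g p := by
  have hs0 : 0 ≤ s := le_trans (Nat.cast_nonneg _) (hS (1, 1))
  have h1 : F ⊆ (pairs N K y).biUnion (fun p => (S p ×ˢ B p).biUnion (fun q =>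
      F.filter (fun t => t.1 = p ∧ R q.1 q.2 t))) := by
    intro t ht
    obtain ⟨h1, x, hx, c, hc, h2⟩ := hF t ht
    rw [mem_biUnion]
    refine ⟨t.1, h1, ?_⟩
    rw [mem_biUnion]
    refine ⟨(x, c), mem_product.2 ⟨hx, hc⟩, ?_⟩
    rw [mem_filter]
    exact ⟨ht, rfl, h2⟩
  have h2 : (F.card : ℝ) ≤ ∑ p ∈ pairs N K y, ∑ q ∈ S p ×ˢ B p,
      ((F.filter (fun t => t.1 = p ∧ R q.1 q.2 t)).card : ℝ) := by
    have a1 := card_le_card h1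
    have a2 := card_biUnion_le (s := pairs N K y) (t := fun p => (S p ×ˢ B p).biUnion (fun q =>
      F.filter (fun t => t.1 = p ∧ R q.1 q.2 t)))
    have a3 : ∑ p ∈ pairs N K y, ((S p ×ˢ B p).biUnion (fun q =>
      F.filter (fun t => t.1 = p ∧ R q.1 q.2 t))).card ≤
      ∑ p ∈ pairs N K y, ∑ q ∈ S p ×ˢ B p, (F.filter (fun t => t.1 = p ∧ R q.1 q.2 t)).card :=
      sum_le_sum (fun p _ => card_biUnion_le)
    exact_mod_cast (a1.trans a2).trans a3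
  refine h2.trans ?_
  rw [mul_sum]
  apply sum_le_sum
  intro p hp
  calc ∑ q ∈ S p ×ˢ B p, ((F.filter (fun t => t.1 = p ∧ R q.1 q.2 t)).card : ℝ)
      ≤ ∑ _q ∈ S p ×ˢ B p, g p := sum_le_sum (fun q hq => hg p hp q.1 (mem_product.1 hq).1 q.2 (mem_product.1 hq).2)
    _ = ((S p).card * (B p).card : ℝ) * g p := by rw [sum_const, nsmul_eq_mul, card_product, Nat.cast_mul]
    _ ≤ s * J * g p := by
      apply mul_le_mul_of_nonneg_right _ (hg0 p hp)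
      exact mul_le_mul (hS p) (hB p) (Nat.cast_nonneg _) hs0

theorem WB8 (hLFS : LFS_stmt) (hWP8 : WP8_stmt) (hWNR : WNR_stmt) (hWSM : WSM_stmt) (hWDL : WDL_stmt) : WB8_stmt := by
  classical
  obtain ⟨y₀, B, C₀, τ, hy₀, hC₀, hτ, hτ1, hLFS⟩ := hLFS
  obtain ⟨CS, hCS, HS⟩ := hWSM y₀ B C₀ τ hy₀ hC₀ hτ hτ1 hLFS
  obtain ⟨CP, hCP, HP⟩ := WB8_pair hWP8 hWNR hWDL y₀ hy₀
  have hA1 : 1 ≤ 968 * CP := by linarith
  have hA2 : 1 ≤ 2 * CS := by linarith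
  refine ⟨968 * CP * (2 * CS), one_le_mul_of_one_le_of_one_le hA1 hA2, ?_⟩
  intro N K L T er es y V ρ s J hN hK hL hT her hes hee hy hyes hV hρ hTV S hS Bx hBx F hF
  have hT1 : (1 : ℝ) ≤ T := by exact_mod_cast hT
  have hT0 : (0 : ℝ) < T := by linarith
  have hN0 : (0 : ℝ) < N := by exact_mod_cast hN
  have hK0 : (0 : ℝ) < K := by exact_mod_cast hK
  have hL0 : (0 : ℝ) < L := by exact_mod_cast hL
  have hy1 : 1 ≤ y := Nat.pos_of_ne_zero hy.ne_zero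
  have hy0 : (0 : ℝ) < y := by exact_mod_cast hy1
  have hes0 : (0 : ℝ) < es := by exact_mod_cast hes
  have her0 : (0 : ℝ) < er := by exact_mod_cast her
  have hlam : ∀ d r, 0 ≤ lamb 1 d r := WPR_lam 1 one_pos
  have hs0 : 0 ≤ s := le_trans (Nat.cast_nonneg _) (hS (1, 1))
  have hJ0 : 0 ≤ J := le_trans (Nat.cast_nonneg _) (hBx (1, 1))
  obtain ⟨ω, hω⟩ : ∃ ω : ℕ, ω = y.primeFactors.card := ⟨_, rfl⟩
  have hρn : 0 ≤ ρ ^ (3 / 2 : ℝ) := Real.rpow_nonneg hρ _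
  obtain ⟨LT, hLT⟩ : ∃ LT : ℕ × ℕ → ℕ → ℝ, LT = fun p h =>
    (1 / lamb 1 (dl y₀ h (p.1 * p.2)) (rt (dl y₀ h (p.1 * p.2)) p.1 p.2)) ^ (3 / 2 : ℝ) := ⟨_, rfl⟩
  have hLT0 : ∀ p h, 0 ≤ LT p h := by
    intro p h
    rw [hLT]
    exact Real.rpow_nonneg (div_nonneg zero_le_one (hlam _ _)) _
  obtain ⟨VQ, hVQ⟩ : ∃ VQ : ℝ, VQ = V / ((N : ℝ) ^ 3 * K * es * (er : ℝ) ^ 2) := ⟨_, rfl⟩
  have hVQ0 : 0 ≤ VQ := by rw [hVQ]; positivity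
  have hCP0 : 0 ≤ CP := by linarith
  have hsn : ∀ p, 0 ≤ ∑ h ∈ Ico 1 T, (1 + ρ ^ (3 / 2 : ℝ) * LT p h) := fun p =>
    sum_nonneg (fun h _ => by
      have := mul_nonneg hρn (hLT0 p h)
      linarith)
  -- the count
  have c1 := WB8_count N K y s J (fun p => CP * (L : ℝ) ^ 2 * (16 * VQ + 1 / T) + CP * L / T *
    (484 * ∑ h ∈ Ico 1 T, (1 + ρ ^ (3 / 2 : ℝ) * LT p h))) S hS Bx hBx F
    (fun x c t => InC er es x t ∧ |(t.2.1 : ℝ) - c.1| + 3 * (er * es) ≤ er * es * (L : ℝ) ∧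
        |(t.2.2.1 : ℝ) - c.2.1| + 3 * (er * es) ≤ er * es * (L : ℝ) ∧ c.2.2 < t.2.2.2 ∧ (t.2.2.2 : ℝ) ≤ c.2.2 + V)
    (fun t ht => by
      obtain ⟨-, a2, -, ⟨x, hx, a4⟩, ⟨c, hc, a5⟩⟩ := hF t ht
      exact ⟨a2, x, hx, c, hc, a4, a5⟩)
    (by
      intro p _
      have := hsn p
      positivity)
    (by
      intro p hp x hx c hc
      have h1 := HP N K L T er es y ρ V hN hK hL hT her hes hee hV hρ hTV p.1 p.2 hp x c.1 c.2.1 c.2.2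
        (F.filter (fun t => t.1 = p ∧ InC er es x t ∧ |(t.2.1 : ℝ) - c.1| + 3 * (er * es) ≤ er * es * (L : ℝ) ∧
        |(t.2.2.1 : ℝ) - c.2.1| + 3 * (er * es) ≤ er * es * (L : ℝ) ∧ c.2.2 < t.2.2.2 ∧ (t.2.2.2 : ℝ) ≤ c.2.2 + V)) (by
        intro t ht
        rw [mem_filter] at ht
        obtain ⟨ht1, ht2, ht3, ht4, ht5, ht6, ht7⟩ := ht
        obtain ⟨a1, a2, a3, a4, a5⟩ := hF t ht1
        exact ⟨a1, ht2, a3, ht3, ht4, ht5, ht6, ht7⟩)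
      rw [← hVQ] at h1
      rw [hLT]
      beta_reduce
      refine le_trans (le_of_eq ?_) h1
      rw [Nat.cast_inj]
      congr 1
      ext t
      simp only [mem_filter])
  refine c1.trans ?_
  -- the sum over the pairs
  have hW := pairs_card N K y hy
  have hSM := HS 1 N K y T le_rfl hN hK hT hy
  rw [← hω] at hW hSM
  have hbT : (1 : ℝ) ^ B * (T : ℝ) ^ (-τ) ≤ 1 := by
    rw [one_pow, one_mul]
    exact Real.rpow_le_one_of_one_le_of_nonpos hT1 (by linarith)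
  obtain ⟨P, hP⟩ : ∃ P : ℝ, P = (N : ℝ) * K / y := ⟨_, rfl⟩
  have hP0 : 0 < P := by rw [hP]; positivity
  have hSM2 : ∑ p ∈ pairs N K y, ∑ h ∈ Ico 1 T, LT p h ≤
      CS ^ (ω + 1) * ((T : ℝ) ^ (5 / 4 : ℝ) + P * (T : ℝ) ^ (1 / 4 : ℝ)) * 2 := by
    have e1 : (N : ℝ) * K * (T : ℝ) ^ (1 / 4 : ℝ) / y = P * (T : ℝ) ^ (1 / 4 : ℝ) := by
      rw [hP]
      ring
    rw [e1] at hSM
    rw [hLT]
    refine hSM.trans ?_
    apply mul_le_mul_of_nonneg_left _ (by positivity)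
    linarith
  have hsum0 : 0 ≤ ∑ p ∈ pairs N K y, ∑ h ∈ Ico 1 T, LT p h :=
    sum_nonneg (fun p _ => sum_nonneg (fun h _ => hLT0 p h))
  obtain ⟨W2, hW2⟩ : ∃ W2 : ℝ, W2 = ((pairs N K y).card : ℝ) := ⟨_, rfl⟩
  have hW20 : 0 ≤ W2 := by rw [hW2]; exact Nat.cast_nonneg _
  obtain ⟨Z, hZ⟩ : ∃ Z : ℝ, Z = (2 * CS) ^ (ω + 1) := ⟨_, rfl⟩
  have hZ0 : 0 ≤ Z := by rw [hZ]; positivity
  have h2ω : (2 : ℝ) ^ ω ≤ Z := by
    rw [hZ]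
    calc (2 : ℝ) ^ ω ≤ (2 * CS) ^ ω := pow_le_pow_left₀ (by norm_num) (by linarith) _
      _ ≤ (2 * CS) ^ (ω + 1) := pow_le_pow_right₀ hA2 (by omega)
  have hCω : CS ^ (ω + 1) ≤ Z := by
    rw [hZ]
    exact pow_le_pow_left₀ (by linarith) (by linarith) _
  have hW3 : W2 ≤ Z * P := by
    rw [hW2]
    refine hW.trans ?_
    rw [hP]
    exact mul_le_mul_of_nonneg_right h2ω (by positivity)
  obtain ⟨U, hU⟩ : ∃ U : ℝ, U = ρ ^ (3 / 2 : ℝ) * (T : ℝ) ^ (-(3 / 4) : ℝ) * (1 + T * y / (N * K)) := ⟨_, rfl⟩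
  -- the product
  have hprod : ρ ^ (3 / 2 : ℝ) * ∑ p ∈ pairs N K y, ∑ h ∈ Ico 1 T, LT p h ≤ 2 * Z * (T * P * U) := by
    have eT : (T : ℝ) * y / (N * K) = T / P := by
      rw [hP]
      field_simp
    have e5 : (T : ℝ) ^ (5 / 4 : ℝ) = T * (T : ℝ) ^ (-(3 / 4) : ℝ) * T := by
      have e6 : (T : ℝ) * (T : ℝ) ^ (-(3 / 4) : ℝ) * T = (T : ℝ) ^ (-(3 / 4) : ℝ) * (T : ℝ) ^ (2 : ℕ) := by ring
      rw [e6, ← Real.rpow_natCast, ← Real.rpow_add hT0]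
      norm_num
    have e7 : (T : ℝ) ^ (1 / 4 : ℝ) = T * (T : ℝ) ^ (-(3 / 4) : ℝ) := by
      rw [mul_comm, ← Real.rpow_add_one hT0.ne']
      norm_num
    calc ρ ^ (3 / 2 : ℝ) * ∑ p ∈ pairs N K y, ∑ h ∈ Ico 1 T, LT p h
        ≤ ρ ^ (3 / 2 : ℝ) * (CS ^ (ω + 1) * ((T : ℝ) ^ (5 / 4 : ℝ) + P * (T : ℝ) ^ (1 / 4 : ℝ)) * 2) :=
          mul_le_mul_of_nonneg_left hSM2 hρn
      _ ≤ ρ ^ (3 / 2 : ℝ) * (Z * ((T : ℝ) ^ (5 / 4 : ℝ) + P * (T : ℝ) ^ (1 / 4 : ℝ)) * 2) := by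
          gcongr
      _ = 2 * Z * (T * P * U) := by
          rw [hU, eT, e5, e7]
          field_simp
          ring
  have hTsum : ∑ p ∈ pairs N K y, ∑ h ∈ Ico 1 T, (1 + ρ ^ (3 / 2 : ℝ) * LT p h) ≤
      W2 * T + 2 * Z * (T * P * U) := by
    have e1 : ∑ p ∈ pairs N K y, ∑ h ∈ Ico 1 T, (1 + ρ ^ (3 / 2 : ℝ) * LT p h) =
        W2 * ((T - 1 : ℕ) : ℝ) + ρ ^ (3 / 2 : ℝ) * ∑ p ∈ pairs N K y, ∑ h ∈ Ico 1 T, LT p h := by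
      have e0 : ∀ p : ℕ × ℕ, ∑ h ∈ Ico 1 T, (1 + ρ ^ (3 / 2 : ℝ) * LT p h) =
          ((T - 1 : ℕ) : ℝ) + ρ ^ (3 / 2 : ℝ) * ∑ h ∈ Ico 1 T, LT p h := by
        intro p
        rw [sum_add_distrib, sum_const, Nat.card_Ico, nsmul_eq_mul, mul_one, mul_sum]
      rw [sum_congr rfl (fun p _ => e0 p), sum_add_distrib, sum_const, nsmul_eq_mul, ← mul_sum, hW2]
    rw [e1]
    have e2 : ((T - 1 : ℕ) : ℝ) ≤ T := by exact_mod_cast Nat.sub_le T 1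
    have e3 : W2 * ((T - 1 : ℕ) : ℝ) ≤ W2 * T := mul_le_mul_of_nonneg_left e2 hW20
    linarith
  have hfin : ∑ p ∈ pairs N K y, (CP * (L : ℝ) ^ 2 * (16 * VQ + 1 / T) + CP * L / T *
      (484 * ∑ h ∈ Ico 1 T, (1 + ρ ^ (3 / 2 : ℝ) * LT p h))) =
      W2 * (CP * (L : ℝ) ^ 2 * (16 * VQ + 1 / T)) + CP * L / T * (484 *
        ∑ p ∈ pairs N K y, ∑ h ∈ Ico 1 T, (1 + ρ ^ (3 / 2 : ℝ) * LT p h)) := by
    rw [sum_add_distrib, sum_const, nsmul_eq_mul, ← mul_sum, ← mul_sum, hW2]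
  rw [hfin, ← hVQ, ← hU, ← hω, ← hP]
  have hU0 : 0 ≤ U := by
    rw [hU]
    have : 0 ≤ (T : ℝ) ^ (-(3 / 4) : ℝ) := Real.rpow_nonneg hT0.le _
    positivity
  have hTi : 0 ≤ 1 / (T : ℝ) := by positivity
  have s2 : W2 * (CP * (L : ℝ) ^ 2 * (16 * VQ + 1 / T)) + CP * L / T * (484 *
        ∑ p ∈ pairs N K y, ∑ h ∈ Ico 1 T, (1 + ρ ^ (3 / 2 : ℝ) * LT p h)) ≤
      968 * CP * Z * P * ((L : ℝ) ^ 2 * (VQ + 1 / T) + L * (1 + U)) := by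
    have t1 : W2 * (CP * (L : ℝ) ^ 2 * (16 * VQ + 1 / T)) ≤ 968 * CP * Z * P * ((L : ℝ) ^ 2 * (VQ + 1 / T)) := by
      calc W2 * (CP * (L : ℝ) ^ 2 * (16 * VQ + 1 / T)) ≤ (Z * P) * (CP * (L : ℝ) ^ 2 * (968 * (VQ + 1 / T))) := by
            apply mul_le_mul hW3 _ (by positivity) (by positivity)
            apply mul_le_mul_of_nonneg_left _ (by positivity)
            linarith
        _ = _ := by ring
    have t2 : CP * L / T * (484 * ∑ p ∈ pairs N K y, ∑ h ∈ Ico 1 T, (1 + ρ ^ (3 / 2 : ℝ) * LT p h)) ≤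
        968 * CP * Z * P * (L * (1 + U)) := by
      calc CP * L / T * (484 * ∑ p ∈ pairs N K y, ∑ h ∈ Ico 1 T, (1 + ρ ^ (3 / 2 : ℝ) * LT p h))
          ≤ CP * L / T * (484 * ((Z * P) * T + 2 * Z * (T * P * U))) := by
            have := mul_le_mul_of_nonneg_right hW3 hT0.le
            apply mul_le_mul_of_nonneg_left _ (by positivity)
            linarith
        _ = CP * L * Z * P * (484 + 968 * U) := by
            field_simp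
            ring
        _ ≤ CP * L * Z * P * (968 * (1 + U)) := by
            apply mul_le_mul_of_nonneg_left _ (by positivity)
            linarith
        _ = _ := by ring
    calc _ ≤ 968 * CP * Z * P * ((L : ℝ) ^ 2 * (VQ + 1 / T)) + 968 * CP * Z * P * (L * (1 + U)) := add_le_add t1 t2
      _ = _ := by ring
  have hM0 : 0 ≤ (L : ℝ) ^ 2 * (VQ + 1 / T) + L * (1 + U) := by positivity
  calc s * J * (W2 * (CP * (L : ℝ) ^ 2 * (16 * VQ + 1 / T)) + CP * L / T * (484 *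
        ∑ p ∈ pairs N K y, ∑ h ∈ Ico 1 T, (1 + ρ ^ (3 / 2 : ℝ) * LT p h)))
      ≤ s * J * (968 * CP * Z * P * ((L : ℝ) ^ 2 * (VQ + 1 / T) + L * (1 + U))) :=
        mul_le_mul_of_nonneg_left s2 (mul_nonneg hs0 hJ0)
    _ = (968 * CP) ^ 1 * Z * s * J * P * ((L : ℝ) ^ 2 * (VQ + 1 / T) + L * (1 + U)) := by ring
    _ ≤ (968 * CP) ^ (ω + 1) * Z * s * J * P * ((L : ℝ) ^ 2 * (VQ + 1 / T) + L * (1 + U)) := by
        have : (968 * CP) ^ 1 ≤ (968 * CP) ^ (ω + 1) := pow_le_pow_right₀ hA1 (by omega)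
        gcongr
    _ = (968 * CP * (2 * CS)) ^ (ω + 1) * s * J * P * ((L : ℝ) ^ 2 * (VQ + 1 / T) + L * (1 + U)) := by
        rw [hZ, mul_pow (968 * CP) (2 * CS)]

end Pool.Agent.T8
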